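import Mathlib

/-!
# Rayleigh matroids: the common definitions (MP_934449_co)

`basisSum M y U V` is `B_U^V(M; y)`, `IsRayleigh M` is the Rayleigh property, `IsRepr K M` says
that `M` is representable over the field `K`.
-/

namespace Pool.Agent.H55.Ray

open Finset

variable {α : Type*} [Fintype α]

open Classical in
/-- `B_U^V(M; y)`: the sum of the products of the weights over the bases `B` of `M` with
`U ⊆ B` and `B ∩ V = ∅`. -/
noncomputable def basisSum (M : Matroid α) (y : α → ℝ) (U V : Set α) : ℝ :=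
  ∑ B ∈ Finset.filter (fun B : Finset α => M.IsBase (B : Set α) ∧ U ⊆ (B : Set α) ∧
    Disjoint (B : Set α) V) Finset.univ, ∏ a ∈ B, y a

/-- The Rayleigh property. -/
def IsRayleigh (M : Matroid α) : Prop :=
  ∀ e ∈ M.E, ∀ f ∈ M.E, e ≠ f → ∀ y : α → ℝ, (∀ a, 0 < y a) →
    0 ≤ basisSum M y {e} ∅ * basisSum M y {f} ∅ - basisSum M y {e, f} ∅ * basisSum M y ∅ ∅

/-- `M` is representable over the field `K`. -/
def IsRepr (K : Type*) [Field K] (M : Matroid α) : Prop :=
  ∃ (n : ℕ) (v : α → Fin n → K), ∀ I : Set α, M.Indep I ↔ I ⊆ M.E ∧ LinearIndepOn K v I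

/-- The difference `B_e^f B_f^e - B_{ef} B^{ef}`; the weights of `e` and `f` do not occur. -/
noncomputable def rayDiff (M : Matroid α) (y : α → ℝ) (e f : α) : ℝ :=
  basisSum M y {e} {f} * basisSum M y {f} {e} - basisSum M y {e, f} ∅ * basisSum M y ∅ {e, f}

open Classical in
/-- Splitting a basis sum according to whether `e` is in the basis. -/
theorem basisSum_split (M : Matroid α) (y : α → ℝ) (U V : Set α) (e : α) :
    basisSum M y U V = basisSum M y (insert e U) V + basisSum M y U (insert e V) := by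
  unfold basisSum
  rw [← sum_filter_add_sum_filter_not _ (fun B : Finset α => e ∈ B)]
  congr 1
  · refine sum_congr ?_ (fun _ _ => rfl)
    ext B
    simp only [mem_filter, mem_univ, true_and, Set.insert_subset_iff, mem_coe]
    tauto
  · refine sum_congr ?_ (fun _ _ => rfl)
    ext B
    simp only [mem_filter, mem_univ, true_and, Set.disjoint_insert_right, mem_coe]
    tauto

/-- `B_e B_f - B_{ef} B = B_e^f B_f^e - B_{ef} B^{ef}`. -/
theorem diff_eq_rayDiff (M : Matroid α) (y : α → ℝ) (e f : α) :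
    basisSum M y {e} ∅ * basisSum M y {f} ∅ - basisSum M y {e, f} ∅ * basisSum M y ∅ ∅
      = rayDiff M y e f := by
  have h1 : basisSum M y {e} ∅ = basisSum M y {e, f} ∅ + basisSum M y {e} {f} := by
    rw [basisSum_split M y {e} ∅ f]
    simp [Set.pair_comm]
  have h2 : basisSum M y {f} ∅ = basisSum M y {e, f} ∅ + basisSum M y {f} {e} := by
    rw [basisSum_split M y {f} ∅ e]
    simp
  have h3 : basisSum M y ∅ ∅
      = basisSum M y {e, f} ∅ + basisSum M y {e} {f} + (basisSum M y {f} {e}
        + basisSum M y ∅ {e, f}) := by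
    rw [basisSum_split M y ∅ ∅ e]
    rw [basisSum_split M y (insert e ∅) ∅ f, basisSum_split M y ∅ (insert e ∅) f]
    simp [Set.pair_comm]
  rw [h1, h2, h3, rayDiff]
  ring

theorem isRayleigh_iff (M : Matroid α) :
    IsRayleigh M ↔ ∀ e ∈ M.E, ∀ f ∈ M.E, e ≠ f → ∀ y : α → ℝ, (∀ a, 0 < y a) →
      0 ≤ rayDiff M y e f := by
  unfold IsRayleigh
  simp only [diff_eq_rayDiff]

end Pool.Agent.H55.Ray
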